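import Pool.Agent.Y466.LM.Main

/-!
# The LMO invariant on families of homology spheres given by powers of Torelli elements

`Pool.Agent.Y466.LM.Defs`: `Tor g` (the Torelli group of the surface `Σ_{g,1}`, as a group of
automorphisms of its fundamental group, a free group), the integral homology sphere `M_φ`,
`φ ∈ Tor g`, `IsInvariant` (invariants of integral homology `3`-spheres, in terms of the `M_φ`;
theorem of Pitsch), `DegreeLE n v` (finite type invariants of order at most `n`, Garoufalidis and
Levine), `Separated n φ ψ` (some rational finite type invariant of order at most `n` has different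
values on `M_φ` and `M_ψ`), `fam u₀ t u q = u₀ t_1^{q_1} u_1 ⋯ t_k^{q_k} u_k`.

By the theorem of Le the LMO invariants of `M_φ` and `M_ψ` are different if and only if some rational
finite type invariant separates them.
-/

set_option autoImplicit false

namespace Pool.Agent.Results.MP_27a3bb_gt.TorelliFamilies

open Pool.Agent.Y466.LM

open Finset Classical in
/-- Let `M(q)`, `q ∈ ℤ^k`, be the integral homology spheres given by the elements
`u₀ t_1^{q_1} u_1 ⋯ t_k^{q_k} u_k` of the Torelli group of genus `g`, and `M'(q')`, `q' ∈ ℤ^k'`, those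
of a second family of this kind, of any genus `g'`.  Then

* there are a number `d` and a polynomial `P` in `k + k'` variables such that, for all `q, q'`, the
  homology spheres `M(q)`, `M'(q')` are separated by rational finite type invariants (that is, by the
  LMO invariant) if and only if they are separated by those of order at most `d`, and this is so if
  and only if `P(q, q') ≠ 0`;
* if the pairs `M(q), M'(q')`, `(q, q') ∈ S`, are not separated by rational finite type invariants (for
  example, since they are homeomorphic), where `S` is a Zariski dense set, then no pair is separated;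
* if one pair `M(q), M'(q')` is separated by rational finite type invariants of order at most `n`,
  then, in every box `∏ A_i × ∏ B_j` with sides of at least `M` integers, all pairs but a proportion
  of at most `n / M` are separated by rational finite type invariants of order at most `n`;
* a finite type invariant of order at most `n` with values in any abelian group which does not
  separate the pairs with `q ≥ a`, `q' ≥ a'`, `|q - a| + |q' - a'| ≤ n` (for some `a, a'`) separates
  no pair at all. -/
theorem result {g g' k k' : ℕ} (u₀ : Tor g) (t u : Fin k → Tor g)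
    (u₀' : Tor g') (t' u' : Fin k' → Tor g') :
    (∃ (d : ℕ) (P : MvPolynomial (Fin k ⊕ Fin k') ℚ), ∀ (q : Fin k → ℤ) (q' : Fin k' → ℤ),
      ((∃ n, Separated n (fam u₀ t u q).1 (fam u₀' t' u' q').1) ↔
        Separated d (fam u₀ t u q).1 (fam u₀' t' u' q').1) ∧
      (Separated d (fam u₀ t u q).1 (fam u₀' t' u' q').1 ↔
        MvPolynomial.eval (Sum.elim (fun i => (q i : ℚ)) fun i => (q' i : ℚ)) P ≠ 0)) ∧
    (∀ S : Set ((Fin k → ℤ) × (Fin k' → ℤ)),
      (∀ R : MvPolynomial (Fin k ⊕ Fin k') ℚ, (∀ z ∈ S, MvPolynomial.eval
        (Sum.elim (fun i => (z.1 i : ℚ)) fun i => (z.2 i : ℚ)) R = 0) → R = 0) →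
      (∀ z ∈ S, ∀ n, ¬ Separated n (fam u₀ t u z.1).1 (fam u₀' t' u' z.2).1) →
      ∀ q q' n, ¬ Separated n (fam u₀ t u q).1 (fam u₀' t' u' q').1) ∧
    (∀ n : ℕ, (∃ q q', Separated n (fam u₀ t u q).1 (fam u₀' t' u' q').1) →
      ∀ (A : Fin k → Finset ℤ) (B : Fin k' → Finset ℤ) (M : ℕ),
        (∀ i, M ≤ (A i).card) → (∀ i, M ≤ (B i).card) →
        M * #{z ∈ Fintype.piFinset A ×ˢ Fintype.piFinset B |
          ¬ Separated n (fam u₀ t u z.1).1 (fam u₀' t' u' z.2).1} ≤
        n * ((∏ i, (A i).card) * ∏ i, (B i).card)) ∧
    (∀ {A : Type} [AddCommGroup A] (n : ℕ) (v : ∀ g : ℕ, MulAut (Fg g) → A), IsInvariant v →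
      DegreeLE n v → ∀ (a : Fin k → ℤ) (a' : Fin k' → ℤ),
      (∀ q q', a ≤ q → a' ≤ q' → ∑ i, (q i - a i) + ∑ i, (q' i - a' i) ≤ n →
        v g (fam u₀ t u q).1 = v g' (fam u₀' t' u' q').1) →
      ∀ q q', v g (fam u₀ t u q).1 = v g' (fam u₀' t' u' q').1) := by
  have h1 := fam_fst (g' := g') u₀ t u
  have h2 := fam_snd (g := g) u₀' t' u'
  refine ⟨?_, ?_, ?_, ?_⟩
  · obtain ⟨d, P, hP⟩ := locus (fun m n => Vn_mono) h1 h2
    simp only [sep_iff]
    exact ⟨d, P, fun q q' => ⟨(hP q q').2.symm, by
      rw [← not_iff_not, not_not]; exact (hP q q').1.symm⟩⟩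
  · simp only [sep_iff]
    intro S hS h q q' n
    exact dense (fun m n => Vn_mono) h1 h2 S hS h q q' n
  · simp only [sep_iff]
    rintro n ⟨q, q', hs⟩ A B M hA hB
    exact zero_one h1 h2 hs A B M hA hB
  · intro A _ n v _ hn a a' hs q q'
    exact fam_simplex u₀ t u u₀' t' u' hn a a' hs q q'

end Pool.Agent.Results.MP_27a3bb_gt.TorelliFamilies
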