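import Pool.Agent.Y466.LM.WMain

/-!
# The LMO invariant on random products of Torelli elements

`Pool.Agent.Y466.LM.Defs`: `Tor g` (the Torelli group of the surface `Σ_{g,1}`, as a group of
automorphisms of its fundamental group, a free group), the integral homology sphere `M_φ`,
`φ ∈ Tor g`, `IsInvariant` (invariants of integral homology `3`-spheres, in terms of the `M_φ`;
theorem of Pitsch), `DegreeLE n v` (finite type invariants of order at most `n`, Garoufalidis and
Levine), `Separated n φ ψ` (some rational finite type invariant of order at most `n` has different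
values on `M_φ` and `M_ψ`).

`Pool.Agent.Y466.LM.WDefs`: `Walk L g` (`k` elements of the Torelli group for each letter of `L`, to be
inserted at `k` places of a product), `W.at w` (the element of the Torelli group given by a word `w`
in `L ∪ {∅}`), `Prob p` (proportion of the elements with the property `p`),
`rate L n N = 3 ((r + 1)/(N + 1))^(1/2^n)`, `r` the number of letters.

By the theorem of Le the LMO invariants of `M_φ` and `M_ψ` are different if and only if some rational
finite type invariant separates them.
-/

set_option autoImplicit false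

namespace Pool.Agent.Results.MP_27a3bb_gt.TorelliWalks

open Pool.Agent.Y466.LM

/-- Let `L` be an alphabet with `r` letters, each of which stands for `k` elements `x_1, …, x_k` of
the Torelli group of genus `g`.  For a word `w` of length `N` in `L ∪ {∅}` let `M(w)` be the integral
homology sphere given by `u₀ x_1(w) u_1 ⋯ x_k(w) u_k` (`k = 1`, `u₀ = 1`: a random walk on the Torelli
group).  Let `M'(w')` be given in the same way by an alphabet `L'` with `r'` letters and the Torelli
group of genus `g'`.  Then

* **anti-concentration**: if a finite type invariant `v` of order at most `n` with values in a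
  torsion-free group is not constant on the `M(w)` (all words of all lengths), then each value is taken
  with probability at most `3 ((r + 1)/(N + 1))^(1/2^n)` on the random `M(w)`, `w` of length `N`;
* **zero-one law**: if one pair `M(w), M'(w')` is separated by rational finite type invariants of order
  at most `n`, then two random ones, of lengths `N` and `N'`, are separated by those of order at most
  `n` with probability at least `1 - 3 ((r + 1)/(N + 1))^(1/2^n) - 3 ((r' + 1)/(N' + 1))^(1/2^n)`;
* **one homology sphere**: if one `M(w)` is separated from `M_ψ` by rational finite type invariants of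
  order at most `n`, then so is a random `M(w)` with probability at least
  `1 - 3 ((r + 1)/(N + 1))^(1/2^n)`;
* **rigidity**: if, for infinitely many `N`, a proportion of at least `δ > 0` of the `M(w)`, `w` of
  length `N`, has the same LMO invariant as `M_ψ` (for instance, since these are homeomorphic to
  `M_ψ`), then all `M(w)` have the same LMO invariant as `M_ψ`;
* **finite test**: a finite type invariant of order at most `n` with values in any abelian group
  which does not separate the `M(w)` from the `M'(w')` for the words of length at most `n` does not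
  separate any `M(w)` from any `M'(w')`. -/
theorem result {L L' : Type} [Fintype L] [Fintype L'] {g g' : ℕ} (W : Walk L g) (W' : Walk L' g') :
    (∀ {A : Type} [AddCommGroup A], (∀ (n : ℕ) (a : A), n ≠ 0 → n • a = 0 → a = 0) →
      ∀ (n : ℕ) (v : ∀ g : ℕ, MulAut (Fg g) → A), IsInvariant v → DegreeLE n v →
      ∀ {N₀ N₁ : ℕ} (w₀ : Fin N₀ → Option L) (w₁ : Fin N₁ → Option L),
        v g (W.at w₀) ≠ v g (W.at w₁) →
        ∀ (N : ℕ) (c : A), Prob (fun w : Fin N → Option L => v g (W.at w) = c) ≤ rate L n N) ∧
    (∀ {n N₀ N₀' : ℕ} (w₀ : Fin N₀ → Option L) (w₀' : Fin N₀' → Option L'),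
      Separated n (W.at w₀) (W'.at w₀') → ∀ N N' : ℕ,
        Prob (fun z : (Fin N → Option L) × (Fin N' → Option L') =>
          ¬ Separated n (W.at z.1) (W'.at z.2)) ≤ rate L n N + rate L' n N') ∧
    (∀ ψ : Tor g', (∀ {n N₀ : ℕ} (w₀ : Fin N₀ → Option L), Separated n (W.at w₀) ψ.1 →
        ∀ N : ℕ, Prob (fun w : Fin N → Option L => ¬ Separated n (W.at w) ψ.1) ≤ rate L n N) ∧
      ∀ δ : ℝ, 0 < δ → (∀ N₀ : ℕ, ∃ N ≥ N₀,
          δ ≤ Prob (fun w : Fin N → Option L => ∀ n, ¬ Separated n (W.at w) ψ.1)) →
        ∀ {N : ℕ} (w : Fin N → Option L) (n : ℕ), ¬ Separated n (W.at w) ψ.1) ∧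
    (∀ {A : Type} [AddCommGroup A] (n : ℕ) (v : ∀ g : ℕ, MulAut (Fg g) → A), IsInvariant v →
      DegreeLE n v →
      (∀ (w : Fin n → Option L) (w' : Fin n → Option L'), v g (W.at w) = v g' (W'.at w')) →
      ∀ {N N' : ℕ} (w : Fin N → Option L) (w' : Fin N' → Option L'),
        v g (W.at w) = v g' (W'.at w')) := by
  refine ⟨?_, ?_, fun ψ => ⟨?_, ?_⟩, ?_⟩
  · intro A _ htf n v _ hn N₀ N₁ w₀ w₁ hne N c
    exact anti W htf hn w₀ w₁ hne N c
  · intro n N₀ N₀' w₀ w₀' hs N N'
    exact zo W W' w₀ w₀' hs N N'
  · intro n N₀ w₀ hs N
    exact oneS W ψ w₀ hs N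
  · intro δ hδ h N w n
    exact rigidS W ψ hδ h w n
  · intro A _ n v _ hn ht N N' w w'
    exact testS W W' hn ht w w'

end Pool.Agent.Results.MP_27a3bb_gt.TorelliWalks
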